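import Pool.Agent.W997.LN.Defs
import Pool.Agent.W997.DB.Circuit

/-!
# Statements of the parts
-/

set_option autoImplicit false

namespace Pool.Agent.W997.LN

open Pool.Agent.W997.TS (bit DBP)
open Pool.Agent.W997.DB (Circuit bits)

/-- Formulas. -/
inductive Fml (X : Type) : Type where
  | lit (z : X) : Fml X
  | not (a : Fml X) : Fml X
  | and (a b : Fml X) : Fml X
  | or (a b : Fml X) : Fml X

namespace Fml

variable {X : Type}

/-- The value of a formula. -/
def eval (y : X → Bool) : Fml X → Bool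
  | lit z => y z
  | not a => !a.eval y
  | and a b => a.eval y && b.eval y
  | or a b => a.eval y || b.eval y

/-- The depth. -/
def depth : Fml X → ℕ
  | lit _ => 0
  | not a => a.depth + 1
  | and a b => max a.depth b.depth + 1
  | or a b => max a.depth b.depth + 1

/-- The size. -/
def size : Fml X → ℕ
  | lit _ => 1
  | not a => a.size + 1
  | and a b => a.size + b.size + 1
  | or a b => a.size + b.size + 1

/-- All literals of the formula have the property. -/
def All (q : X → Prop) : Fml X → Prop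
  | lit z => q z
  | not a => a.All q
  | and a b => a.All q ∧ b.All q
  | or a b => a.All q ∧ b.All q

end Fml

/-- LAY: layers of formulas give a circuit. -/
def S_LAY : Prop := ∀ (V W : Type) [Fintype W] (lay : W → ℕ) (L d s : ℕ)
  (φ : W → Fml (V ⊕ W)) (ψ : Fml (V ⊕ W)),
  (∀ w, (φ w).depth ≤ d) → ψ.depth ≤ d → (∀ w, (φ w).size ≤ s) → ψ.size ≤ s →
  (∀ w, lay w ≤ L) → (∀ w, (φ w).All (fun z => ∀ w', z = Sum.inr w' → lay w' < lay w)) →
  ∃ C : Circuit V, C.size ≤ (Fintype.card W + 1) * s ∧ C.depth ≤ (L + 2) * (d + 1) ∧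
    ∀ (y : V → Bool) (u : W → Bool), (∀ w, u w = (φ w).eval (Sum.elim y u)) →
      C.Outputs y (ψ.eval (Sum.elim y u))

/-- The bit `e` of the value of the node `v`. -/
def valBit {h p l : ℕ} (x : Input h p l) (w : Node h p × Fin l) : Bool :=
  (value x w.1.1.val (by have := w.1.1.2; omega) w.1.2.1 w.1.2.2).val.testBit w.2.val

/-- MUX: a bit of the value of a node is computed by a formula from the input bits and the bits of
the values of the nodes of the previous level. -/
def S_MUX : Prop := ∀ h p l : ℕ,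
  ∃ φ : Node h p × Fin l → Fml ((Var h p l × Fin l) ⊕ (Node h p × Fin l)),
    (∀ w, (φ w).depth ≤ 3 * p + 2 * l + 3) ∧ (∀ w, (φ w).size ≤ 2 ^ (3 * p + 2 * l + 4)) ∧
    (∀ w, (φ w).All (fun z => ∀ w', z = Sum.inr w' → w'.1.1.val < w.1.1.val)) ∧
    ∀ (x : Input h p l) (w : Node h p × Fin l),
      valBit x w = (φ w).eval (Sum.elim (bits x) (valBit x))

/-- DFS: the depth first evaluation. -/
def S_DFS : Prop := ∀ h p l : ℕ, ∃ P : DBP (Var h p l) (2 ^ l),
  P.size ≤ (2 * 2 ^ (3 * p + l)) ^ (h + 1) ∧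
  ∀ x, ∃ t m : ℕ, t ≤ (h + 1) * (2 ^ p) ^ h ∧ m ≤ (h + 1) * (2 ^ p) ^ 2 ∧
    P.Run x t m (rootBit h p l x)

end Pool.Agent.W997.LN
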