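import Pool.Agent.W997.LN.Law
import Pool.Agent.W997.LN.Stm

/-!
# The asymptotic form
-/

set_option autoImplicit false

namespace Pool.Agent.W997.LN

open Finset
open Pool.Agent.W997.TS (DBP bit)
open Pool.Agent.W997.DB (HardReadsOrTime ByProgram ByCircuit Circuit bits)

theorem HardReadsOrTime.mono {V : Type} [Fintype V] [DecidableEq V] {k : ℕ}
    {f : (V → Fin k) → Bool} {s s' γ m m' t t' : ℝ} (h : HardReadsOrTime f s γ m t)
    (h1 : s' ≤ s) (h3 : m' ≤ m) (h4 : t' ≤ t) : HardReadsOrTime f s' γ m' t' := by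
  intro P T M R hS hrun hag
  rcases h P T M R (hS.trans h1) hrun hag with h5 | h5
  · exact Or.inl ((mul_le_mul_of_nonneg_right h3 (by positivity)).trans h5)
  · exact Or.inr ((mul_le_mul_of_nonneg_right h4 (by positivity)).trans h5)

theorem card_var (h p l : ℕ) :
    (Fintype.card (Var h p l) : ℝ) = ((h : ℝ) + 1) * (2 ^ p) ^ 2 * 2 ^ l := by
  rw [Fintype.card_prod, card_node, Fintype.card_fin]
  push_cast
  ring

theorem aux1 {h X : ℝ} (h1 : 16 ≤ X) (h2 : h ≤ X) : h + 1 ≤ X * X := by nlinarith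

theorem aux2 {A l B : ℝ} (hA : 1 ≤ A) (h : l + 1 ≤ B) : A * l + 1 ≤ A * B := by nlinarith

theorem aux3 {h X : ℝ} (h1 : 1 ≤ h) (h2 : 16 ≤ X) : 1 ≤ (h + 1) * X ^ 2 := by nlinarith

theorem aux4 {l p X : ℝ} (h1 : l ≤ p * p) (h2 : p + 1 ≤ X) (h3 : 0 ≤ p) : l + 1 ≤ X ^ 2 := by
  nlinarith

theorem aux5 {p L : ℝ} (h1 : 4 ≤ p) (h2 : 0.6931471803 < L) : 1 ≤ 2 * (p * L) := by nlinarith

/-- The circuit. -/
theorem circuit (hLAY : S_LAY) (hMUX : S_MUX) (h p l : ℕ) (hl : 1 ≤ l) :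
    ∃ C : Circuit (Var h p l × Fin l),
      C.size ≤ ((h + 1) * (2 ^ p) ^ 2 * l + 1) * 2 ^ (3 * p + 2 * l + 4) ∧
      C.depth ≤ (h + 2) * (3 * p + 2 * l + 4) ∧ ∀ x, C.Outputs (bits x) (rootBit h p l x) := by
  obtain ⟨φ, h1, h2, h3, h4⟩ := hMUX h p l
  set r : Node h p × Fin l := ((⟨h, by omega⟩, 0, 0), ⟨0, hl⟩) with hr
  obtain ⟨C, h5, h6, h7⟩ := hLAY (Var h p l × Fin l) (Node h p × Fin l)
    (fun w => w.1.1.val) h (3 * p + 2 * l + 3) (2 ^ (3 * p + 2 * l + 4)) φ
    (Fml.not (Fml.lit (Sum.inr r))) h1 (by simp only [Fml.depth]; omega) h2 (by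
      simp only [Fml.size]
      calc 1 + 1 = 2 ^ 1 := by norm_num
        _ ≤ 2 ^ (3 * p + 2 * l + 4) := Nat.pow_le_pow_right (by norm_num) (by omega))
    (fun w => by have := w.1.1.2; omega) h3
  refine ⟨C, ?_, h6, ?_⟩
  · rw [Fintype.card_prod, card_node, Fintype.card_fin] at h5
    exact h5
  · intro x
    have h8 := h7 (bits x) (valBit x) (fun w => h4 x w)
    have h9 : (Fml.not (Fml.lit (Sum.inr r)) : Fml ((Var h p l × Fin l) ⊕
        (Node h p × Fin l))).eval (Sum.elim (bits x) (valBit x)) = rootBit h p l x := by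
      simp only [Fml.eval, Sum.elim_inr]
      have h10 : valBit x r = (value x h le_rfl 0 0).val.testBit 0 := rfl
      rw [h10]
      unfold rootBit bit
      rw [Nat.testBit_zero]
      have := Nat.mod_two_eq_zero_or_one (value x h le_rfl 0 0).val
      rcases this with h11 | h11 <;> simp [h11]
    rw [h9] at h8
    exact h8

/-- **The law between depth and time.** -/
theorem main (hLAY : S_LAY) (hMUX : S_MUX) (hDFS : S_DFS) (δ : ℝ) (hδ : 0 < δ) :
    ∃ β : ℕ, 1 ≤ β ∧ ∃ c : ℝ, 0 < c ∧ ∃ p₀ : ℕ, ∀ p : ℕ, p₀ ≤ p → ∀ h : ℕ, 1 ≤ h → h ≤ 2 ^ p →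
      ∀ l : ℕ, l = β * p → ∀ N : ℝ, N = Fintype.card (Var h p l) → N ^ c ≤ 2 ^ p ∧
      ∀ f : Input h p l → Bool, f = rootBit h p l →
      ByCircuit f (N ^ 3) (10 * h * Real.log N) ∧
      ByProgram f (3 * h * Real.log N) (N ^ h) (N ^ δ) ∧
      ByProgram f (N ^ δ) (N ^ δ) (N ^ δ) ∧
      HardReadsOrTime f (N ^ c) (N ^ (-c)) (N ^ (1 - δ)) (N ^ (c * h)) := by
  obtain ⟨β, hβ1, hβ2⟩ : ∃ β : ℕ, 10 ≤ β ∧ 14 ≤ β * δ := by
    obtain ⟨β, hβ⟩ := exists_nat_ge (14 / δ)
    refine ⟨β + 10, by omega, ?_⟩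
    rw [div_le_iff₀ hδ] at hβ
    push_cast
    nlinarith
  refine ⟨β, by omega, 1 / (16 * ((β : ℝ) + 4)), by positivity, β + 4, ?_⟩
  intro p hp h h1 hh l hl N hN
  have hβr : (10 : ℝ) ≤ β := by exact_mod_cast hβ1
  have hp4 : 4 ≤ p := by omega
  have hpr : (4 : ℝ) ≤ p := by exact_mod_cast hp4
  obtain ⟨c, hc⟩ : ∃ c : ℝ, c = 1 / (16 * ((β : ℝ) + 4)) := ⟨_, rfl⟩
  rw [← hc]
  have hc0 : 0 < c := by rw [hc]; positivity
  have hc1 : ((β : ℝ) + 4) * c = 1 / 16 := by rw [hc]; field_simp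
  obtain ⟨X, hX⟩ : ∃ X : ℝ, X = 2 ^ p := ⟨_, rfl⟩
  have hX16 : 16 ≤ X := by
    rw [hX]
    calc (16 : ℝ) = 2 ^ 4 := by norm_num
      _ ≤ 2 ^ p := pow_le_pow_right₀ (by norm_num) hp4
  have hX0 : 0 < X := by linarith
  have hX1 : 1 ≤ X := by linarith
  have hhX : (h : ℝ) ≤ X := by rw [hX]; exact_mod_cast hh
  have h1r : (1 : ℝ) ≤ h := by exact_mod_cast h1
  have hlX : (2 : ℝ) ^ l = X ^ β := by
    rw [hl, hX, ← pow_mul, mul_comm]
  have hN' : N = ((h : ℝ) + 1) * X ^ 2 * X ^ β := by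
    rw [hN, card_var, hlX, hX]
  have hlow : X ^ (β + 2) ≤ N := by
    rw [hN']
    have h2 : X ^ (β + 2) = 1 * X ^ 2 * X ^ β := by ring
    rw [h2]
    gcongr
    linarith
  have hup : N ≤ X ^ (β + 4) := by
    rw [hN']
    have h2 : X ^ (β + 4) = (X * X) * X ^ 2 * X ^ β := by ring
    rw [h2]
    gcongr
    exact aux1 hX16 hhX
  have hN0 : 0 < N := lt_of_lt_of_le (by positivity) hlow
  have hN1 : 1 ≤ N := le_trans (one_le_pow₀ hX1) hlow
  have hlowr : ∀ r : ℝ, 0 ≤ r → X ^ (((β : ℝ) + 2) * r) ≤ N ^ r := by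
    intro r hr
    have h2 : (X ^ (β + 2)) ^ r ≤ N ^ r := Real.rpow_le_rpow (by positivity) hlow hr
    rw [← Real.rpow_natCast, ← Real.rpow_mul hX0.le] at h2
    push_cast at h2
    exact h2
  have hupr : ∀ r : ℝ, 0 ≤ r → N ^ r ≤ X ^ (((β : ℝ) + 4) * r) := by
    intro r hr
    have h2 : N ^ r ≤ (X ^ (β + 4)) ^ r := Real.rpow_le_rpow hN0.le hup hr
    rw [← Real.rpow_natCast, ← Real.rpow_mul hX0.le] at h2
    push_cast at h2
    exact h2
  have hNc : N ^ c ≤ X ^ (1 / 16 : ℝ) := by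
    refine (hupr c hc0.le).trans ?_
    rw [hc1]
  have hX16' : X ^ (1 / 16 : ℝ) ≤ X := by
    calc X ^ (1 / 16 : ℝ) ≤ X ^ (1 : ℝ) := Real.rpow_le_rpow_of_exponent_le hX1 (by norm_num)
      _ = X := Real.rpow_one X
  -- the number of nodes
  have hn : ((h : ℝ) + 1) * X ^ 2 ≤ X ^ 4 := by
    have h2 : X ^ 4 = (X * X) * X ^ 2 := by ring
    rw [h2]
    gcongr
    exact aux1 hX16 hhX
  have hNδ : X ^ (14 : ℕ) ≤ N ^ δ := by
    refine le_trans ?_ (hlowr δ hδ.le)
    rw [← Real.rpow_natCast]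
    apply Real.rpow_le_rpow_of_exponent_le hX1
    push_cast
    have h2 : ((β : ℝ) + 2) * δ = β * δ + 2 * δ := by ring
    rw [h2]
    linarith
  have hlogX : Real.log X = p * Real.log 2 := by rw [hX, Real.log_pow]
  have hlog2 : Real.log 2 < 0.6931471808 := Real.log_two_lt_d9
  have hlog2' : 0.6931471803 < Real.log 2 := Real.log_two_gt_d9
  have hlogN : ((β : ℝ) + 2) * (p * Real.log 2) ≤ Real.log N := by
    have h2 : Real.log (X ^ (β + 2)) ≤ Real.log N := Real.log_le_log (by positivity) hlow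
    rw [Real.log_pow, hlogX] at h2
    push_cast at h2
    exact h2
  have hlogN0 : 0 ≤ Real.log N := Real.log_nonneg hN1
  have hl1 : 1 ≤ l := by
    rw [hl]
    have : 0 < β * p := Nat.mul_pos (by omega) (by omega)
    omega
  refine ⟨?_, ?_⟩
  · rw [← hX]
    exact hNc.trans hX16'
  rintro f rfl
  refine ⟨?_, ?_, ?_, ?_⟩
  · -- circuits
    obtain ⟨C, h2, h3, h4⟩ := circuit hLAY hMUX h p l hl1
    refine ⟨C, ?_, ?_, h4⟩
    · have h5 : (C.size : ℝ) ≤ (((h : ℝ) + 1) * (2 ^ p) ^ 2 * l + 1) *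
          2 ^ (3 * p + 2 * l + 4) := by exact_mod_cast h2
      have h6 : ((h : ℝ) + 1) * (2 ^ p) ^ 2 * l + 1 ≤ N := by
        rw [hN', ← hX, ← hlX]
        have h7 : (l : ℝ) + 1 ≤ 2 ^ l := by exact_mod_cast Nat.lt_two_pow_self (n := l)
        exact aux2 (aux3 h1r hX16) h7
      have h7 : (2 : ℝ) ^ (3 * p + 2 * l + 4) ≤ N ^ 2 := by
        have h8 : (2 : ℝ) ^ (3 * p + 2 * l + 4) = 16 * X ^ 3 * (X ^ β) ^ 2 := by
          rw [pow_add, pow_add, mul_comm 3 p, mul_comm 2 l, pow_mul, pow_mul, hlX, hX]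
          ring
        rw [h8]
        calc 16 * X ^ 3 * (X ^ β) ^ 2 ≤ X * X ^ 3 * (X ^ β) ^ 2 := by gcongr
          _ = (X ^ (β + 2)) ^ 2 := by ring
          _ ≤ N ^ 2 := pow_le_pow_left₀ (by positivity) hlow 2
      calc (C.size : ℝ) ≤ (((h : ℝ) + 1) * (2 ^ p) ^ 2 * l + 1) * 2 ^ (3 * p + 2 * l + 4) := h5
        _ ≤ N * N ^ 2 := mul_le_mul h6 h7 (by positivity) hN0.le
        _ = N ^ 3 := by ring
    · have h5 : (C.depth : ℝ) ≤ ((h : ℝ) + 2) * (3 * p + 2 * l + 4) := by exact_mod_cast h3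
      have h6 : (l : ℝ) = β * p := by rw [hl]; push_cast; ring
      have h7 : (3 : ℝ) * p + 2 * l + 4 ≤ 2 * (((β : ℝ) + 2) * p) := by
        rw [h6]
        have h8 : 2 * (((β : ℝ) + 2) * p) = 2 * (β * p) + 4 * p := by ring
        rw [h8]
        linarith
      have h8 : ((β : ℝ) + 2) * p * 0.6931471803 ≤ Real.log N := by
        refine le_trans ?_ hlogN
        have h9 : 0 ≤ ((β : ℝ) + 2) * p := by positivity
        have h10 := mul_le_mul_of_nonneg_left hlog2'.le h9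
        have h11 : ((β : ℝ) + 2) * p * Real.log 2 = ((β : ℝ) + 2) * (p * Real.log 2) := by ring
        linarith
      have h9 : 0 ≤ ((β : ℝ) + 2) * p := by positivity
      calc (C.depth : ℝ) ≤ ((h : ℝ) + 2) * (3 * p + 2 * l + 4) := h5
        _ ≤ (3 * h) * (2 * (((β : ℝ) + 2) * p)) :=
            mul_le_mul (by linarith) h7 (by positivity) (by positivity)
        _ = h * (6 * (((β : ℝ) + 2) * p)) := by ring
        _ ≤ h * (10 * Real.log N) := by
            apply mul_le_mul_of_nonneg_left _ (by positivity)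
            linarith
        _ = 10 * h * Real.log N := by ring
  · -- depth first
    obtain ⟨P, h2, h3⟩ := hDFS h p l
    refine ⟨P, ?_, ?_⟩
    · have hP0 : 0 < (P.size : ℝ) := by
        have : 0 < P.size := Fintype.card_pos_iff.2 ⟨P.start⟩
        exact_mod_cast this
      have h4 : (P.size : ℝ) ≤ (2 * 2 ^ (3 * p + l)) ^ (h + 1) := by exact_mod_cast h2
      have h5 : Real.log P.size ≤ ((h : ℝ) + 1) * ((3 * p + l + 1) * Real.log 2) := by
        refine (Real.log_le_log hP0 h4).trans (le_of_eq ?_)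
        rw [Real.log_pow, show (2 : ℝ) * 2 ^ (3 * p + l) = 2 ^ (3 * p + l + 1) by ring,
          Real.log_pow]
        push_cast
        ring
      have h6 : (l : ℝ) = β * p := by rw [hl]; push_cast; ring
      rw [h6] at h5
      have h7 : ((h : ℝ) + 1) * ((3 * p + β * p + 1) * Real.log 2) ≤
          (2 * h) * (((β : ℝ) + 4) * p * Real.log 2) := by
        apply mul_le_mul (by linarith) _ (by positivity) (by positivity)
        apply mul_le_mul_of_nonneg_right _ (by positivity)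
        have h8 : ((β : ℝ) + 4) * p = β * p + 4 * p := by ring
        rw [h8]
        linarith
      have h8 : (2 * (h : ℝ)) * (((β : ℝ) + 4) * p * Real.log 2) ≤
          3 * h * (((β : ℝ) + 2) * (p * Real.log 2)) := by
        have h9 : 0 ≤ ((β : ℝ) - 2) * ((h : ℝ) * (p * Real.log 2)) :=
          mul_nonneg (by linarith) (by positivity)
        have h10 : 3 * (h : ℝ) * (((β : ℝ) + 2) * (p * Real.log 2)) -
            (2 * (h : ℝ)) * (((β : ℝ) + 4) * p * Real.log 2) =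
            ((β : ℝ) - 2) * ((h : ℝ) * (p * Real.log 2)) := by ring
        linarith
      calc Real.log P.size ≤ _ := h5
        _ ≤ _ := h7
        _ ≤ _ := h8
        _ ≤ 3 * h * Real.log N := by
            apply mul_le_mul_of_nonneg_left hlogN (by positivity)
    · intro x
      obtain ⟨t, m, ht, hm, hr⟩ := h3 x
      refine ⟨t, m, ?_, ?_, hr⟩
      · have h4 : (t : ℝ) ≤ ((h : ℝ) + 1) * (2 ^ p) ^ h := by exact_mod_cast ht
        rw [← hX] at h4
        refine h4.trans ?_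
        have h5 : (h : ℝ) + 1 ≤ X ^ 2 := by
          rw [sq]
          exact aux1 hX16 hhX
        calc ((h : ℝ) + 1) * X ^ h ≤ X ^ 2 * X ^ h := by gcongr
          _ = X ^ (2 + h) := by ring
          _ ≤ X ^ ((β + 2) * h) := by
              apply pow_le_pow_right₀ hX1
              have h6 : 12 * h ≤ (β + 2) * h := Nat.mul_le_mul_right _ (by omega)
              omega
          _ = (X ^ (β + 2)) ^ h := by rw [pow_mul]
          _ ≤ N ^ h := pow_le_pow_left₀ (by positivity) hlow h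
      · have h4 : (m : ℝ) ≤ ((h : ℝ) + 1) * (2 ^ p) ^ 2 := by exact_mod_cast hm
        rw [← hX] at h4
        calc (m : ℝ) ≤ X ^ 4 := h4.trans hn
          _ ≤ X ^ 14 := pow_le_pow_right₀ hX1 (by norm_num)
          _ ≤ N ^ δ := hNδ
  · -- all nodes
    obtain ⟨P, h2, h3⟩ := allProg (h := h) (p := p) (l := l)
    have hb : ∀ e : ℝ, e ≤ X ^ 4 → e ≤ N ^ δ := by
      intro e he
      calc e ≤ X ^ 4 := he
        _ ≤ X ^ 14 := pow_le_pow_right₀ hX1 (by norm_num)
        _ ≤ N ^ δ := hNδ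
    refine ⟨P, ?_, ?_⟩
    · have hP0 : 0 < (P.size : ℝ) := by
        have : 0 < P.size := Fintype.card_pos_iff.2 ⟨P.start⟩
        exact_mod_cast this
      obtain ⟨n, hnn⟩ : ∃ n : ℕ, n = (h + 1) * (2 ^ p) ^ 2 := ⟨_, rfl⟩
      rw [← hnn] at h2
      have hnr : (n : ℝ) = ((h : ℝ) + 1) * X ^ 2 := by rw [hnn, hX]; push_cast; ring
      have hn0 : (0 : ℝ) < n := by rw [hnr]; positivity
      have h4 : (P.size : ℝ) ≤ n * (2 ^ l) ^ n := by exact_mod_cast h2
      have h5 : Real.log P.size ≤ Real.log n + n * (l * Real.log 2) := by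
        refine (Real.log_le_log hP0 h4).trans (le_of_eq ?_)
        rw [Real.log_mul (by positivity) (by positivity), Real.log_pow, Real.log_pow]
      have h6 : Real.log n ≤ n := (Real.log_le_sub_one_of_pos hn0).trans (by linarith)
      have h7 : (l : ℝ) * Real.log 2 ≤ l := by
        exact mul_le_of_le_one_right (by positivity) (by linarith)
      have h8 : (l : ℝ) + 1 ≤ X ^ 2 := by
        have h9 : (l : ℝ) ≤ p * p := by
          rw [hl]
          have : (β : ℝ) ≤ p := by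
            have : β ≤ p := by omega
            exact_mod_cast this
          push_cast
          exact mul_le_mul_of_nonneg_right this (by positivity)
        have h10 : (p : ℝ) + 1 ≤ X := by
          rw [hX]
          exact_mod_cast Nat.lt_two_pow_self (n := p)
        exact aux4 h9 h10 (by positivity)
      calc Real.log P.size ≤ Real.log n + n * (l * Real.log 2) := h5
        _ ≤ n + n * l := by
            have := mul_le_mul_of_nonneg_left h7 hn0.le
            linarith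
        _ = n * (l + 1) := by ring
        _ ≤ X ^ 4 * X ^ 2 := by
            apply mul_le_mul _ h8 (by positivity) (by positivity)
            rw [hnr]
            exact hn
        _ = X ^ 6 := by ring
        _ ≤ X ^ 14 := pow_le_pow_right₀ hX1 (by norm_num)
        _ ≤ N ^ δ := hNδ
    · intro x
      obtain ⟨t, m, ht, hm, hr⟩ := h3 x
      refine ⟨t, m, hb _ ?_, hb _ ?_, hr⟩
      · have h4 : (t : ℝ) ≤ ((h : ℝ) + 1) * (2 ^ p) ^ 2 := by exact_mod_cast ht
        rw [← hX] at h4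
        exact h4.trans hn
      · have h4 : (m : ℝ) ≤ ((h : ℝ) + 1) * (2 ^ p) ^ 2 := by exact_mod_cast hm
        rw [← hX] at h4
        exact h4.trans hn
  · -- the tradeoff
    obtain ⟨a, ha⟩ : ∃ a : ℕ, a = p / 2 := ⟨_, rfl⟩
    have hγ : N ^ (-c) = (N ^ c)⁻¹ := Real.rpow_neg hN0.le c
    have hγ1 : X ^ (-(1 / 16) : ℝ) ≤ N ^ (-c) := by
      rw [hγ, Real.rpow_neg hX0.le]
      exact inv_anti₀ (by positivity) hNc
    have hγ0 : 0 < N ^ (-c) := by positivity
    have h2 := tradeoff (h := h) (p := p) (l := l) hl1 (2 ^ a) (2 ^ (p - a))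
      Nat.one_le_two_pow (by rw [← pow_add]; apply le_of_eq; congr 1; omega) (X ^ 2) (N ^ (-c))
      (one_le_pow₀ hX1) (by
        rw [← hX]
        calc ((h : ℝ) + 1) * X ^ 2 ≤ X ^ 4 := hn
          _ = (X ^ 2) ^ 2 := by ring) (by
        have h3 : X ^ (-(1 / 16) : ℝ) * X ^ (2 : ℝ) ≤ N ^ (-c) * X ^ 2 := by
          rw [Real.rpow_two]
          gcongr
        rw [← Real.rpow_add hX0] at h3
        refine le_trans ?_ h3
        calc (2 : ℝ) ≤ X := by linarith
          _ = X ^ (1 : ℝ) := (Real.rpow_one X).symm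
          _ ≤ _ := Real.rpow_le_rpow_of_exponent_le hX1 (by norm_num))
    refine HardReadsOrTime.mono h2 ?_ ?_ ?_
    · -- log size
      have h3 : X ^ (1 / 16 : ℝ) ≤ 2 ^ a := by
        rw [hX, ← Real.rpow_natCast, ← Real.rpow_natCast, ← Real.rpow_mul (by norm_num)]
        apply Real.rpow_le_rpow_of_exponent_le (by norm_num)
        have h4 : p ≤ 16 * a := by omega
        have h5 : (p : ℝ) ≤ 16 * a := by exact_mod_cast h4
        linarith
      have h4 : 1 ≤ Real.log (X ^ 2) := by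
        rw [Real.log_pow, hlogX]
        push_cast
        exact aux5 hpr hlog2'
      push_cast
      calc N ^ c ≤ X ^ (1 / 16 : ℝ) := hNc
        _ ≤ 2 ^ a := h3
        _ = 2 ^ a * 1 := (mul_one _).symm
        _ ≤ 2 ^ a * Real.log (X ^ 2) := by gcongr
    · -- reads
      rw [hlX]
      have h3 : N ^ (1 - δ) ≤ X ^ (β + 4) / X ^ (14 : ℕ) := by
        rw [Real.rpow_sub hN0, Real.rpow_one]
        exact div_le_div₀ (by positivity) hup (by positivity) hNδ
      have h4 : X ^ (-(1 / 16) : ℝ) ≥ X⁻¹ := by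
        rw [← Real.rpow_neg_one]
        exact Real.rpow_le_rpow_of_exponent_le hX1 (by norm_num)
      have h5 : X⁻¹ ≤ N ^ (-c) := h4.trans hγ1
      have h6 : X⁻¹ * X⁻¹ ≤ N ^ (-c) / 2 := by
        rw [div_eq_mul_inv]
        exact mul_le_mul h5 (inv_anti₀ (by norm_num) (by linarith)) (by positivity) hγ0.le
      calc N ^ (1 - δ) ≤ X ^ (β + 4) / X ^ (14 : ℕ) := h3
        _ = X⁻¹ * X⁻¹ * (X ^ β / (X ^ 2) ^ 4) := by
            have : X ^ (β + 4) = X ^ β * X ^ 4 := by ring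
            rw [this]
            field_simp
        _ ≤ N ^ (-c) / 2 * (X ^ β / (X ^ 2) ^ 4) := by gcongr
    · -- time
      push_cast
      have h3 : N ^ (c * h) ≤ X ^ ((h : ℝ) / 16) := by
        refine (hupr (c * h) (by positivity)).trans (le_of_eq ?_)
        congr 1
        rw [← mul_assoc, hc1]
        ring
      have h4 : X ^ ((h : ℝ) / 2) ≤ ((2 : ℝ) ^ (p - a)) ^ h := by
        rw [hX, ← Real.rpow_natCast, ← Real.rpow_mul (by norm_num), ← pow_mul,
          ← Real.rpow_natCast]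
        apply Real.rpow_le_rpow_of_exponent_le (by norm_num)
        have h5 : p ≤ 2 * (p - a) := by omega
        have h6 : (p : ℝ) ≤ 2 * ((p - a : ℕ) : ℝ) := by exact_mod_cast h5
        have h7 := mul_le_mul_of_nonneg_right h6 (show (0 : ℝ) ≤ h by linarith)
        push_cast
        linarith
      have h5 : (1 : ℝ) / 2 ≥ X ^ (-(1 / 4) : ℝ) := by
        have h6 : (16 : ℝ) ^ (1 / 4 : ℝ) ≤ X ^ (1 / 4 : ℝ) :=
          Real.rpow_le_rpow (by norm_num) hX16 (by norm_num)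
        have h7 : (16 : ℝ) ^ (1 / 4 : ℝ) = 2 := by
          rw [show (16 : ℝ) = 2 ^ (4 : ℝ) by norm_num, ← Real.rpow_mul (by norm_num)]
          norm_num
        rw [h7] at h6
        rw [Real.rpow_neg hX0.le]
        calc (X ^ (1 / 4 : ℝ))⁻¹ ≤ (2 : ℝ)⁻¹ := inv_anti₀ (by norm_num) h6
          _ = 1 / 2 := by norm_num
      calc N ^ (c * h) ≤ X ^ ((h : ℝ) / 16) := h3
        _ ≤ X ^ (-(1 / 16) + -(1 / 4) + (h : ℝ) / 2) := by
            apply Real.rpow_le_rpow_of_exponent_le hX1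
            linarith
        _ = X ^ (-(1 / 16) : ℝ) * X ^ (-(1 / 4) : ℝ) * X ^ ((h : ℝ) / 2) := by
            rw [Real.rpow_add hX0, Real.rpow_add hX0]
        _ ≤ N ^ (-c) * (1 / 2) * ((2 : ℝ) ^ (p - a)) ^ h := by gcongr
        _ = N ^ (-c) / 2 * ((2 : ℝ) ^ (p - a)) ^ h := by ring

end Pool.Agent.W997.LN
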