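import Pool.Agent.W997.TS.Defs

/-!
# The layered evaluation problem with large fan-in
-/

set_option autoImplicit false

namespace Pool.Agent.W997.LN

open Pool.Agent.W997.TS (bit)

/-- The nodes: a node `(j, g, i)` consists of its level `j ≤ h` and two numbers `g, i < 2 ^ p`. -/
abbrev Node (h p : ℕ) : Type := Fin (h + 1) × Fin (2 ^ p) × Fin (2 ^ p)

/-- The variables: every node has a table with `2 ^ l` entries. -/
abbrev Var (h p l : ℕ) : Type := Node h p × Fin (2 ^ l)

/-- An input assigns a letter to every entry of every table. -/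
abbrev Input (h p l : ℕ) : Type := Var h p l → Fin (2 ^ l)

/-- The binary digits of a letter, as elements of the field with two elements. -/
def vec {l : ℕ} (a : Fin (2 ^ l)) : Fin l → ZMod 2 := fun e =>
  if a.val.testBit e.val then 1 else 0

/-- The letter with given binary digits. -/
def letter {l : ℕ} (w : Fin l → ZMod 2) : Fin (2 ^ l) :=
  ⟨Nat.ofBits (fun e : Fin l => decide (w e = 1)), Nat.ofBits_lt_two_pow _⟩

/-- The value of the node `(j, g, i)`: for `j = 0` it is the entry `0` of its table, and for
`j > 0` the entry whose address is the bitwise sum modulo `2` of the values of the `2 ^ p` nodes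
`(j - 1, i, s)`. -/
def value {h p l : ℕ} (x : Input h p l) :
    (j : ℕ) → j ≤ h → Fin (2 ^ p) → Fin (2 ^ p) → Fin (2 ^ l)
  | 0, _, g, i => x ((⟨0, by omega⟩, g, i), letter 0)
  | j + 1, hj, g, i => x ((⟨j + 1, by omega⟩, g, i),
      letter (∑ s : Fin (2 ^ p), vec (value x j (by omega) i s)))

/-- The lowest bit of the value of the node `(h, 0, 0)`. -/
def rootBit (h p l : ℕ) (x : Input h p l) : Bool := bit (value x h le_rfl 0 0)

end Pool.Agent.W997.LN
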