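import Pool.Agent.W997.LN.Net
import Pool.Agent.W997.SR.PebProg
import Pool.Agent.W997.DB.Stmt

/-!
# The law for general networks with numbers, and the evaluation of all nodes
-/

set_option autoImplicit false

namespace Pool.Agent.W997.LN

open Finset
open Pool.Agent.W997.SR (Net Leads)
open Pool.Agent.W997.TS (DBP bit)
open Pool.Agent.W997.DB (HardReadsOrTime ByProgram run_le)

section

variable {V Γ : Type} {k : ℕ} [Fintype Γ] [DecidableEq Γ] [DecidableEq V]

/-- The law for a network. -/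
theorem law_net [Fintype V] (Y : Net V Γ k) (v₀ : Γ) (htop : ∀ v, v₀ ∉ Y.kid v) (hk : Even k)
    (hk1 : 1 ≤ k) (val : (V → Fin k) → Γ → Fin k) (hval : ∀ x v, val x v = x (Y.pos (val x) v))
    (m τ : ℕ) (hm : 1 ≤ m)
    (hτ : ∀ (P : DBP V k) (z : Γ → Fin k) (l : List P.State), Y.Good P m v₀ z l → τ ≤ l.length)
    (s γ : ℝ) (hs1 : 1 ≤ s) (hs : (Fintype.card Γ : ℝ) ≤ s ^ 2) (hγ : 2 ≤ γ * s) :
    HardReadsOrTime (fun x : V → Fin k => bit (val x v₀)) (m * Real.log s) γ
      (γ / 2 * (k / s ^ 4)) (γ / 2 * τ) := by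
  classical
  intro P T M R hP hrun hag
  have hs0 : 0 < s := by linarith
  have hγ0 : 0 < γ := by
    by_contra hcon
    push Not at hcon
    nlinarith
  have hk0 : (0 : ℝ) < (k : ℝ) := by exact_mod_cast hk1
  have hP0 : 0 < (P.size : ℝ) := by
    have : 0 < P.size := Fintype.card_pos_iff.2 ⟨P.start⟩
    exact_mod_cast this
  have hPs : (P.size : ℝ) ≤ s ^ m := by
    rw [← Real.log_le_log_iff hP0 (by positivity), Real.log_pow]
    exact hP
  obtain ⟨t, ht⟩ : ∃ t : ℕ, t = ⌊(k : ℝ) / s ^ 4⌋₊ := ⟨_, rfl⟩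
  have ht1 : (t : ℝ) ≤ (k : ℝ) / s ^ 4 := by rw [ht]; exact Nat.floor_le (by positivity)
  have ht2 : (k : ℝ) / s ^ 4 < t + 1 := by rw [ht]; exact Nat.lt_floor_add_one _
  obtain ⟨ρ, hρ⟩ : ∃ ρ : ℝ, ρ = ((Fintype.card Γ * t : ℕ) : ℝ) / (k : ℝ) := ⟨_, rfl⟩
  have hρ0 : 0 ≤ ρ := by rw [hρ]; positivity
  have hρ1 : ρ ≤ 1 / s ^ 2 := by
    rw [hρ]
    push_cast
    rw [div_le_div_iff₀ hk0 (by positivity)]
    have h1 : (t : ℝ) * s ^ 4 ≤ k := by
      rw [← le_div_iff₀ (by positivity)]
      exact ht1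
    have h2 : (0 : ℝ) ≤ t := by positivity
    calc (Fintype.card Γ : ℝ) * t * s ^ 2 ≤ s ^ 2 * t * s ^ 2 := by gcongr
      _ = t * s ^ 4 := by ring
      _ ≤ 1 * k := by linarith
  have hfail : ρ + P.size * ρ ^ m ≤ γ := by
    have h1 : ρ ≤ 1 / s := by
      refine hρ1.trans ?_
      apply one_div_le_one_div_of_le hs0
      nlinarith
    have h2 : P.size * ρ ^ m ≤ 1 / s := by
      calc P.size * ρ ^ m ≤ s ^ m * (1 / s ^ 2) ^ m :=
            mul_le_mul hPs (pow_le_pow_left₀ hρ0 hρ1 m) (by positivity) (by positivity)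
        _ = (1 / s) ^ m := by
            rw [← mul_pow]
            congr 1
            field_simp
        _ ≤ (1 / s) ^ 1 := by
            apply pow_le_pow_of_le_one (by positivity) _ hm
            rw [div_le_one hs0]
            exact hs1
        _ = 1 / s := pow_one _
    have h3 : 1 / s + 1 / s ≤ γ := by
      rw [← add_div, div_le_iff₀ hs0]
      linarith
    linarith
  rw [hρ] at hfail
  rcases Y.law_avg2 m t τ γ hk hk1 P v₀ htop val hval (fun z l hg => hτ P z l hg)
    T M R hrun hfail hag with h | h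
  · left
    refine le_trans ?_ h
    apply mul_le_mul_of_nonneg_right _ (by positivity)
    exact mul_le_mul_of_nonneg_left ht2.le (by positivity)
  · right
    exact h

/-- **Evaluation of all nodes.** -/
theorem all_net (Y : Net V Γ k) (hk1 : 1 ≤ k) (v₀ : Γ) (val : (V → Fin k) → Γ → Fin k)
    (hval : ∀ x v, val x v = x (Y.pos (val x) v)) :
    ∃ P : DBP V k, P.size ≤ Fintype.card Γ * k ^ Fintype.card Γ ∧
      ∀ x, ∃ t m : ℕ, t ≤ Fintype.card Γ ∧ m ≤ Fintype.card Γ ∧
        P.Run x t m (bit (val x v₀)) := by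
  classical
  have key : ∀ (e : ℕ) (C : Finset Γ), (∀ c ∈ C, Y.kid c ⊆ C) → Cᶜ.card = e →
      ∃ (S : Type) (_ : Fintype S) (query : S → V) (next : S → Fin k → S ⊕ Bool)
        (start : (Γ → Fin k) → S ⊕ Bool), Fintype.card S ≤ e * k ^ Fintype.card Γ ∧
        ∃ t ≤ e, (v₀ ∉ C → 1 ≤ t) ∧ ∀ (x : V → Fin k) (a : Γ → Fin k), (∀ c ∈ C, a c = val x c) →
          Leads query next x (fun _ => True) (bit (val x v₀)) t (start a) := by
    intro e
    induction e with
    | zero =>
      intro C _ hC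
      have h1 : Cᶜ = ∅ := card_eq_zero.1 hC
      have h2 : v₀ ∉ Cᶜ := by rw [h1]; exact notMem_empty _
      rw [mem_compl, not_not] at h2
      refine ⟨Empty, inferInstance, fun s => s.elim, fun s => s.elim,
        fun a => Sum.inr (bit (a v₀)), by simp, 0, le_rfl, fun h => absurd h2 h, ?_⟩
      intro x a ha
      change Sum.inr (bit (a v₀)) = Sum.inr (bit (val x v₀))
      rw [ha v₀ h2]
    | succ e ih =>
      intro C hcl hC
      by_cases hv : v₀ ∈ C
      · refine ⟨Empty, inferInstance, fun s => s.elim, fun s => s.elim,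
          fun a => Sum.inr (bit (a v₀)), by simp, 0, Nat.zero_le _, fun h => absurd hv h, ?_⟩
        intro x a ha
        change Sum.inr (bit (a v₀)) = Sum.inr (bit (val x v₀))
        rw [ha v₀ hv]
      obtain ⟨v, hvC, hmin⟩ := exists_min_image Cᶜ Y.rk ⟨v₀, mem_compl.2 hv⟩
      have hkid : Y.kid v ⊆ C := by
        intro c hc
        by_contra hcC
        have h1 := hmin c (mem_compl.2 hcC)
        have h2 := Y.kid_lt v c hc
        omega
      rw [mem_compl] at hvC
      obtain ⟨S', hS', query', next', start', hcard, t, ht, -, hlead⟩ := ih (insert v C) (by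
        intro c hc
        rcases mem_insert.1 hc with rfl | hc
        · exact hkid.trans (subset_insert _ _)
        · exact (hcl c hc).trans (subset_insert _ _)) (by
        rw [card_compl] at hC ⊢
        rw [card_insert_of_notMem hvC]
        omega)
      refine ⟨(Γ → Fin k) ⊕ S', inferInstance,
        Sum.elim (fun a => Y.pos a v) query',
        Sum.elim (fun a y => (start' (Function.update a v y)).map Sum.inr id)
          (fun s y => (next' s y).map Sum.inr id),
        fun a => Sum.inl (Sum.inl a), ?_, t + 1, by omega, fun _ => by omega, ?_⟩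
      · rw [Fintype.card_sum, Fintype.card_fun, Fintype.card_fin]
        calc k ^ Fintype.card Γ + Fintype.card S'
            ≤ k ^ Fintype.card Γ + e * k ^ Fintype.card Γ := Nat.add_le_add_left hcard _
          _ = (e + 1) * k ^ Fintype.card Γ := by ring
      · intro x a ha
        have hpos : Y.pos a v = Y.pos (val x) v :=
          Y.pos_congr a (val x) v (fun c hc => ha c (hkid hc))
        refine ⟨Sum.inl a, rfl, trivial, ?_⟩
        simp only [Sum.elim_inl]
        refine Leads.map query' next' _ _ Sum.inr (fun _ => rfl) (fun _ _ => rfl) x _ _ t _ ?_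
        refine hlead x _ ?_
        intro c hc
        by_cases hcv : c = v
        · rw [hcv, Function.update_self, hpos, ← hval x v]
        · rw [Function.update_of_ne hcv]
          exact ha c (mem_of_mem_insert_of_ne hc hcv)
  obtain ⟨S, hS, query, next, start, hcard, t, ht, ht1, hlead⟩ := key _ ∅
    (fun c hc => absurd hc (notMem_empty c)) rfl
  rw [compl_empty, card_univ] at hcard ht
  have ht1' := ht1 (notMem_empty v₀)
  obtain ⟨t', rfl⟩ : ∃ t', t = t' + 1 := ⟨t - 1, by omega⟩
  obtain ⟨s0, hs0, -⟩ := hlead (fun _ => ⟨0, hk1⟩) (fun _ => ⟨0, hk1⟩)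
    (fun c hc => absurd hc (notMem_empty c))
  refine ⟨{ State := S, start := s0, query := query, next := next }, hcard, ?_⟩
  intro x
  have h1 := hlead x (fun _ => ⟨0, hk1⟩) (fun c hc => absurd hc (notMem_empty c))
  rw [hs0] at h1
  obtain ⟨l, hl, hp, -⟩ := Leads.path
    { State := S, start := s0, query := query, next := next } x _ _ t' s0 h1
  have hrun : ({ State := S, start := s0, query := query, next := next } : DBP V k).Run x
      (t' + 1) ((s0 :: l).map query).toFinset.card (bit (val x v₀)) :=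
    ⟨l, hp, by rw [List.length_cons, hl], rfl⟩
  exact ⟨t' + 1, _, ht, (run_le _ hrun).trans ht, hrun⟩

end

variable {h p l : ℕ}

theorem card_node (h p : ℕ) : Fintype.card (Node h p) = (h + 1) * (2 ^ p) ^ 2 := by
  rw [Fintype.card_prod, Fintype.card_prod, Fintype.card_fin, Fintype.card_fin]
  ring

/-- **The tradeoff between time and space for the layered network.** -/
theorem tradeoff (hl : 1 ≤ l) (m K : ℕ) (hm : 1 ≤ m) (hK : K * m ≤ 2 ^ p) (s γ : ℝ)
    (hs1 : 1 ≤ s) (hs : ((h : ℝ) + 1) * (2 ^ p) ^ 2 ≤ s ^ 2) (hγ : 2 ≤ γ * s) :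
    HardReadsOrTime (rootBit h p l) (m * Real.log s) γ (γ / 2 * (2 ^ l / s ^ 4))
      (γ / 2 * (K : ℝ) ^ h) := by
  have h1 := law_net (net h p l) (⟨h, by omega⟩, 0, 0) (fun v => root_notMem v 0 0)
    ((Nat.even_pow).2 ⟨even_two, by omega⟩) Nat.one_le_two_pow valF (fun x v => valF_eq x v)
    m (K ^ h) hm (fun P z L hg => time_good P z m K hm hK L hg) s γ hs1 (by
      rw [card_node]
      push_cast
      exact hs) hγ
  push_cast at h1
  exact h1

theorem allProg : ∃ P : DBP (Var h p l) (2 ^ l),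
    P.size ≤ ((h + 1) * (2 ^ p) ^ 2) * (2 ^ l) ^ ((h + 1) * (2 ^ p) ^ 2) ∧
      ∀ x, ∃ t m : ℕ, t ≤ (h + 1) * (2 ^ p) ^ 2 ∧ m ≤ (h + 1) * (2 ^ p) ^ 2 ∧
        P.Run x t m (rootBit h p l x) := by
  have h1 := all_net (net h p l) Nat.one_le_two_pow (⟨h, by omega⟩, 0, 0) valF
    (fun x v => valF_eq x v)
  rw [card_node] at h1
  exact h1

end Pool.Agent.W997.LN
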