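import Pool.Agent.W997.LN.Defs
import Pool.Agent.W997.SR.Core2

/-!
# The layered network, and the time of good computations
-/

set_option autoImplicit false

namespace Pool.Agent.W997.LN

open Finset
open Pool.Agent.W997.SR (Net)
open Pool.Agent.W997.TS (DBP bit)

variable {h p l : ℕ}

theorem letter_injective : Function.Injective (letter (l := l)) := by
  intro w w' hw
  funext e
  have h1 := congrArg Fin.val hw
  simp only [letter] at h1
  have h2 := congrArg (fun n => n.testBit e.val) h1
  simp only [Nat.testBit_ofBits_lt _ _ e.isLt] at h2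
  have h3 : (w e = 1) ↔ (w' e = 1) := by
    simpa using h2
  have key : ∀ a b : ZMod 2, ((a = 1) ↔ (b = 1)) → a = b := by decide
  exact key _ _ h3

theorem vec_injective : Function.Injective (vec (l := l)) := by
  intro a b hab
  apply Fin.ext
  apply Nat.eq_of_testBit_eq
  intro i
  by_cases hi : i < l
  · have h1 := congrFun hab ⟨i, hi⟩
    simp only [vec] at h1
    have key : ∀ u v : Bool, ((if u = true then (1 : ZMod 2) else 0) =
        (if v = true then 1 else 0)) → u = v := by decide
    exact key _ _ h1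
  · have h2 : (2 : ℕ) ^ l ≤ 2 ^ i := Nat.pow_le_pow_right (by norm_num) (by omega)
    rw [Nat.testBit_lt_two_pow (lt_of_lt_of_le a.isLt h2),
      Nat.testBit_lt_two_pow (lt_of_lt_of_le b.isLt h2)]

/-- The children of a node. -/
def chd (v : Node h p) (s : Fin (2 ^ p)) : Node h p :=
  (⟨v.1.val - 1, by have := v.1.2; omega⟩, v.2.2, s)

theorem chd_injective (v : Node h p) : Function.Injective (chd v) := by
  intro s s' hs
  exact congrArg (fun w : Node h p => w.2.2) hs

/-- The network. -/
def net (h p l : ℕ) : Net (Var h p l) (Node h p) (2 ^ l) where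
  nodeOf := Prod.fst
  pos := fun z v => (v, if v.1.val = 0 then letter 0
    else letter (∑ s : Fin (2 ^ p), vec (z (chd v s))))
  kid := fun v => if v.1.val = 0 then ∅ else univ.image (chd v)
  rk := fun v => v.1.val
  nodeOf_pos := fun _ _ => rfl
  pos_congr := by
    intro z w v hzw
    by_cases hv : v.1.val = 0
    · simp only [if_pos hv]
    · simp only [if_neg hv] at hzw ⊢
      rw [Prod.mk.injEq]
      refine ⟨rfl, ?_⟩
      congr 1
      apply sum_congr rfl
      intro s _
      rw [hzw _ (mem_image_of_mem _ (mem_univ s))]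
  pos_inj := by
    intro z w v c hc hzw hpos
    by_cases hv : v.1.val = 0
    · simp only [if_pos hv] at hc
      exact absurd hc (notMem_empty c)
    · simp only [if_neg hv, Prod.mk.injEq, true_and] at hc hzw hpos
      obtain ⟨s, -, rfl⟩ := mem_image.1 hc
      have h1 := letter_injective hpos
      rw [← add_sum_erase _ _ (mem_univ s), ← add_sum_erase _ _ (mem_univ s)] at h1
      have h2 : ∑ s' ∈ univ.erase s, vec (z (chd v s')) =
          ∑ s' ∈ univ.erase s, vec (w (chd v s')) := by
        apply sum_congr rfl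
        intro s' hs'
        rw [hzw _ (mem_image_of_mem _ (mem_univ s'))
          (fun h3 => ne_of_mem_erase hs' (chd_injective v h3))]
      rw [h2] at h1
      exact vec_injective (add_right_cancel h1)
  kid_lt := by
    intro v c hc
    by_cases hv : v.1.val = 0
    · simp only [if_pos hv] at hc
      exact absurd hc (notMem_empty c)
    · simp only [if_neg hv] at hc
      obtain ⟨s, -, rfl⟩ := mem_image.1 hc
      simp only [chd]
      omega

/-- The values of the nodes. -/
def valF (x : Input h p l) (v : Node h p) : Fin (2 ^ l) :=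
  value x v.1.val (by have := v.1.2; omega) v.2.1 v.2.2

theorem valF_eq (x : Input h p l) (v : Node h p) :
    valF x v = x ((net h p l).pos (valF x) v) := by
  obtain ⟨⟨j, hj⟩, g, i⟩ := v
  cases j with
  | zero => rfl
  | succ j => rfl

theorem mem_kid {j : ℕ} (hj : j + 1 ≤ h) (g i s : Fin (2 ^ p)) :
    ((⟨j, by omega⟩, i, s) : Node h p) ∈ (net h p l).kid (⟨j + 1, by omega⟩, g, i) := by
  have h1 : (net h p l).kid (⟨j + 1, by omega⟩, g, i) =
      univ.image (chd ((⟨j + 1, by omega⟩, g, i) : Node h p)) := by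
    unfold net
    simp only
    rw [if_neg (by omega)]
  rw [h1, mem_image]
  exact ⟨s, mem_univ _, rfl⟩

theorem kid_spec {a c : Node h p} (hc : c ∈ (net h p l).kid a) :
    a.1.val = c.1.val + 1 ∧ c.2.1 = a.2.2 := by
  unfold net at hc
  simp only at hc
  by_cases hv : a.1.val = 0
  · rw [if_pos hv] at hc
    exact absurd hc (notMem_empty c)
  · rw [if_neg hv] at hc
    obtain ⟨s, -, rfl⟩ := mem_image.1 hc
    simp only [chd]
    exact ⟨by omega, trivial⟩

theorem root_notMem (v : Node h p) (i0 i1 : Fin (2 ^ p)) :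
    ((⟨h, by omega⟩, i0, i1) : Node h p) ∉ (net h p l).kid v := by
  intro hc
  have h1 := (kid_spec hc).1
  have h2 := v.1.2
  simp only at h1
  omega

section Time

variable (P : DBP (Var h p l) (2 ^ l)) (z : Node h p → Fin (2 ^ l))

open Classical in
/-- The groups of level `j` which are evaluated. -/
noncomputable def Ev (j : ℕ) (hj : j ≤ h) (b : List P.State) : Finset (Fin (2 ^ p)) :=
  univ.filter (fun i => ∃ q ∈ b, ∃ g, P.query q = (net h p l).pos z (⟨j, by omega⟩, g, i))

theorem mem_Ev (j : ℕ) (hj : j ≤ h) (b : List P.State) (i : Fin (2 ^ p)) :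
    i ∈ Ev P z j hj b ↔
      ∃ q ∈ b, ∃ g, P.query q = (net h p l).pos z (⟨j, by omega⟩, g, i) := by
  classical
  unfold Ev
  rw [mem_filter]
  exact ⟨fun h => h.2, fun h => ⟨mem_univ _, h⟩⟩

theorem Ev_append (j : ℕ) (hj : j ≤ h) (b c : List P.State) :
    Ev P z j hj (b ++ c) = Ev P z j hj b ∪ Ev P z j hj c := by
  classical
  ext i
  rw [mem_union, mem_Ev, mem_Ev, mem_Ev]
  constructor
  · rintro ⟨q, hq, hh⟩
    rcases List.mem_append.1 hq with hq | hq
    · exact Or.inl ⟨q, hq, hh⟩
    · exact Or.inr ⟨q, hq, hh⟩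
  · rintro (⟨q, hq, hh⟩ | ⟨q, hq, hh⟩)
    · exact ⟨q, List.mem_append_left _ hq, hh⟩
    · exact ⟨q, List.mem_append_right _ hq, hh⟩

theorem Ev_single (j : ℕ) (hj : j ≤ h) (q : P.State) : (Ev P z j hj [q]).card ≤ 1 := by
  classical
  rw [card_le_one]
  intro i hi i' hi'
  rw [mem_Ev] at hi hi'
  obtain ⟨q1, hq1, g1, h1⟩ := hi
  obtain ⟨q2, hq2, g2, h2⟩ := hi'
  rw [List.mem_singleton] at hq1 hq2
  rw [hq1] at h1
  rw [hq2] at h2
  have h3 := congrArg Prod.fst (h1.symm.trans h2)
  exact congrArg (fun w : Node h p => w.2.2) h3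

/-- Cutting off a part. -/
theorem cut (j : ℕ) (hj : j ≤ h) (m n : ℕ) : ∀ b : List P.State,
    n + m ≤ (Ev P z j hj b).card →
    ∃ b1 b2, b = b1 ++ b2 ∧ m ≤ (Ev P z j hj b1).card ∧ n ≤ (Ev P z j hj b2).card := by
  classical
  induction m with
  | zero =>
    intro b hb
    exact ⟨[], b, rfl, Nat.zero_le _, hb⟩
  | succ m ih =>
    intro b hb
    -- move the cut to the right until a new group appears
    have step : ∀ (b2 b1 : List P.State), b = b1 ++ b2 → m ≤ (Ev P z j hj b1).card →
        (Ev P z j hj b1).card ≤ m → n + 1 ≤ (Ev P z j hj b2).card →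
        ∃ b1 b2, b = b1 ++ b2 ∧ m + 1 ≤ (Ev P z j hj b1).card ∧ n ≤ (Ev P z j hj b2).card := by
      intro b2
      induction b2 with
      | nil =>
        intro b1 hbb h1 h1' h2
        rw [List.append_nil] at hbb
        rw [hbb] at hb
        omega
      | cons q b2 ih2 =>
        intro b1 hbb h1 h1' h2
        have e1 : b1 ++ q :: b2 = (b1 ++ [q]) ++ b2 := by simp
        have e2 : q :: b2 = [q] ++ b2 := rfl
        have h3 := Ev_single P z j hj q
        have h4 : (Ev P z j hj (q :: b2)).card ≤ 1 + (Ev P z j hj b2).card := by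
          rw [e2, Ev_append]
          exact (card_union_le _ _).trans (Nat.add_le_add_right h3 _)
        have h5 : (Ev P z j hj b1).card ≤ (Ev P z j hj (b1 ++ [q])).card := by
          rw [Ev_append]
          exact card_le_card subset_union_left
        have h6 : (Ev P z j hj (b1 ++ [q])).card ≤ (Ev P z j hj b1).card + 1 := by
          rw [Ev_append]
          exact (card_union_le _ _).trans (Nat.add_le_add_left h3 _)
        by_cases h7 : m + 1 ≤ (Ev P z j hj (b1 ++ [q])).card
        · exact ⟨b1 ++ [q], b2, by rw [hbb, e1], h7, by omega⟩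
        · refine ih2 (b1 ++ [q]) (by rw [hbb, e1]) (by omega) (by omega) ?_
          -- nothing new: the total number is bounded by both parts
          have h8 : (Ev P z j hj b).card ≤
              (Ev P z j hj (b1 ++ [q])).card + (Ev P z j hj b2).card := by
            rw [hbb, e1, Ev_append]
            exact card_union_le _ _
          omega
    obtain ⟨b1, b2, hbb, h1, h2⟩ := ih b (by omega)
    by_cases h3 : m + 1 ≤ (Ev P z j hj b1).card
    · exact ⟨b1, b2, hbb, h3, h2⟩
    · have h8 : (Ev P z j hj b).card ≤ (Ev P z j hj b1).card + (Ev P z j hj b2).card := by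
        rw [hbb, Ev_append]
        exact card_union_le _ _
      exact step b2 b1 hbb h1 (by omega) (by omega)

/-- Many parts. -/
theorem parts (j : ℕ) (hj : j ≤ h) (m E : ℕ) (Q : List P.State → List P.State → Prop)
    (hQ : ∀ b1 b2 c, Q (b1 ++ b2) c → Q b1 (b2 ++ c) ∧ Q b2 c)
    (hE : ∀ b c, Q b c → m ≤ (Ev P z j hj b).card → E ≤ b.length) : ∀ (n : ℕ)
    (b c : List P.State), Q b c → n * m ≤ (Ev P z j hj b).card → n * E ≤ b.length := by
  intro n
  induction n with
  | zero =>
    intro b c _ _
    simp
  | succ n ih =>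
    intro b c hq hb
    obtain ⟨b1, b2, rfl, h1, h2⟩ := cut P z j hj m (n * m) b (by
      have : (n + 1) * m = n * m + m := by ring
      omega)
    obtain ⟨q1, q2⟩ := hQ b1 b2 c hq
    have h3 := hE b1 (b2 ++ c) q1 h1
    have h4 := ih b2 c q2 h2
    rw [List.length_append]
    have : (n + 1) * E = n * E + E := by ring
    omega

/-- If a parent is evaluated in a part and the node is not, then the node is live. -/
theorem live_of (c a : Node h p) (hca : c ∈ (net h p l).kid a) : ∀ b e : List P.State,
    (∃ q ∈ b, P.query q = (net h p l).pos z a) → (∀ q ∈ b, P.query q ≠ (net h p l).pos z c) →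
    (net h p l).Live P z c (b ++ e)
  | [], e, ⟨q, hq, _⟩, _ => absurd hq List.not_mem_nil
  | q :: b, e, ⟨q', hq', h1⟩, h2 => by
    by_cases h3 : P.query q = (net h p l).pos z a
    · exact Or.inl ⟨a, hca, h3⟩
    · refine Or.inr ⟨h2 q List.mem_cons_self, live_of c a hca b e ?_
        (fun q2 hq2 => h2 q2 (List.mem_cons_of_mem _ hq2))⟩
      rcases List.mem_cons.1 hq' with rfl | h4
      · exact absurd h1 h3
      · exact ⟨q', h4, h1⟩

/-- If `m` groups of level `j + 1` are evaluated, then all groups of level `j` are. -/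
theorem full (m : ℕ) (j : ℕ) (hj : j + 1 ≤ h) (b e : List P.State)
    (hcr : ¬ (net h p l).Crowded P z m (b ++ e)) (hb : m ≤ (Ev P z (j + 1) hj b).card) :
    Ev P z j (by omega) b = univ := by
  classical
  by_contra hcon
  have h1 : ∃ s, s ∉ Ev P z j (by omega) b := by
    by_contra h2
    push Not at h2
    exact hcon (eq_univ_of_forall h2)
  obtain ⟨s, hs⟩ := h1
  obtain ⟨I, hI, hIm⟩ := exists_subset_card_eq hb
  apply hcr
  have hinj : Function.Injective (fun i : Fin (2 ^ p) =>
      ((⟨j, by omega⟩, i, s) : Node h p)) := by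
    intro i i' hi
    exact congrArg (fun w : Node h p => w.2.1) hi
  refine ⟨I.image (fun i => ((⟨j, by omega⟩, i, s) : Node h p)), ?_, ?_, ?_⟩
  · rw [card_image_of_injective _ hinj, hIm]
  · intro a c hc c' hc' h2 h3
    obtain ⟨i, -, rfl⟩ := mem_image.1 h2
    obtain ⟨i', -, rfl⟩ := mem_image.1 h3
    have h4 := (kid_spec hc).2
    have h5 := (kid_spec hc').2
    simp only at h4 h5
    rw [h4, h5]
  · intro c hc
    obtain ⟨i, hi, rfl⟩ := mem_image.1 hc
    obtain ⟨q, hq, g, h4⟩ := (mem_Ev P z (j + 1) hj b i).1 (hI hi)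
    refine live_of P z _ (⟨j + 1, by omega⟩, g, i) (mem_kid hj g i s) b e ⟨q, hq, h4⟩ ?_
    intro q' hq' h5
    exact hs ((mem_Ev P z j (by omega) b s).2 ⟨q', hq', i, h5⟩)

/-- The recursion. -/
theorem time_rec (m K : ℕ) (hm : 1 ≤ m) (hK : K * m ≤ 2 ^ p) : ∀ (j : ℕ) (hj : j ≤ h)
    (b e : List P.State), (∀ l', l' <:+ b ++ e → l' ≠ [] → ¬ (net h p l).Crowded P z m l') →
    m ≤ (Ev P z j hj b).card → K ^ j ≤ b.length := by
  intro j
  induction j with
  | zero =>
    intro hj b e _ hb
    rw [pow_zero]
    rcases b with _ | ⟨q, b⟩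
    · have h1 : Ev P z 0 hj ([] : List P.State) = ∅ := by
        rw [eq_empty_iff_forall_notMem]
        intro i hi
        rw [mem_Ev] at hi
        obtain ⟨q, hq, -⟩ := hi
        exact List.not_mem_nil hq
      rw [h1, card_empty] at hb
      omega
    · simp
  | succ j ih =>
    intro hj b e hQ hb
    have hne : b ++ e ≠ [] := by
      intro h0
      rw [List.append_eq_nil_iff] at h0
      obtain ⟨rfl, -⟩ := h0
      have h1 : Ev P z (j + 1) hj ([] : List P.State) = ∅ := by
        rw [eq_empty_iff_forall_notMem]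
        intro i hi
        rw [mem_Ev] at hi
        obtain ⟨q, hq, -⟩ := hi
        exact List.not_mem_nil hq
      rw [h1, card_empty] at hb
      omega
    have h1 := full P z m j hj b e (hQ _ List.suffix_rfl hne) hb
    have h2 : K * m ≤ (Ev P z j (by omega) b).card := by
      rw [h1, card_univ, Fintype.card_fin]
      exact hK
    have h3 := parts P z j (by omega) m (K ^ j)
      (fun b e => ∀ l', l' <:+ b ++ e → l' ≠ [] → ¬ (net h p l).Crowded P z m l') (by
        intro b1 b2 c hq
        refine ⟨fun l' hl' => hq l' (by rw [List.append_assoc]; exact hl'), fun l' hl' =>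
          hq l' (hl'.trans ?_)⟩
        rw [List.append_assoc]
        exact List.suffix_append b1 _)
      (fun b c hq hb => ih (by omega) b c hq hb) K b e hQ h2
    calc K ^ (j + 1) = K * K ^ j := by ring
      _ ≤ b.length := h3

/-- **The time of good computations.** -/
theorem time_good (m K : ℕ) (hm : 1 ≤ m) (hK : K * m ≤ 2 ^ p) (L : List P.State)
    (hg : (net h p l).Good P m (⟨h, by omega⟩, 0, 0) z L) : K ^ h ≤ L.length := by
  classical
  obtain ⟨⟨q0, hq0, hroot⟩, hstart, hcr⟩ := hg
  rcases Nat.eq_zero_or_pos h with h0 | h0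
  · have h1 : K ^ h = 1 := by rw [h0, pow_zero]
    rw [h1]
    exact List.length_pos_of_mem hq0
  · obtain ⟨j, rfl⟩ : ∃ j, h = j + 1 := ⟨h - 1, by omega⟩
    have h1 : Ev P z j (by omega) L = univ := by
      by_contra hcon
      have h2 : ∃ s, s ∉ Ev P z j (by omega) L := by
        by_contra h3
        push Not at h3
        exact hcon (eq_univ_of_forall h3)
      obtain ⟨s, hs⟩ := h2
      apply hstart
      have hlive : (net (j + 1) p l).Live P z (⟨j, by omega⟩, 0, s) (L ++ []) := by
        refine live_of P z _ (⟨j + 1, by omega⟩, 0, 0) (mem_kid le_rfl 0 0 s) L []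
          ⟨q0, hq0, hroot⟩ ?_
        intro q' hq' h5
        exact hs ((mem_Ev P z j (by omega) L s).2 ⟨q', hq', 0, h5⟩)
      rw [List.append_nil] at hlive
      refine ⟨{(⟨j, by omega⟩, 0, s)}, card_singleton _, ?_, ?_⟩
      · intro a c1 _ c2 _ h1 h2
        rw [mem_singleton] at h1 h2
        rw [h1, h2]
      · intro c hc
        rw [mem_singleton] at hc
        rw [hc]
        exact hlive
    have h2 : K * m ≤ (Ev P z j (by omega) L).card := by
      rw [h1, card_univ, Fintype.card_fin]
      exact hK
    have h3 := parts P z j (by omega) m (K ^ j)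
      (fun b e => ∀ l', l' <:+ b ++ e → l' ≠ [] → ¬ (net (j + 1) p l).Crowded P z m l') (by
        intro b1 b2 c hq
        refine ⟨fun l' hl' => hq l' (by rw [List.append_assoc]; exact hl'), fun l' hl' =>
          hq l' (hl'.trans ?_)⟩
        rw [List.append_assoc]
        exact List.suffix_append b1 _)
      (fun b c hq hb => time_rec P z m K hm hK j (by omega) b c hq hb) K L [] (by
        intro l' hl' hne
        rw [List.append_nil] at hl'
        rcases l' with _ | ⟨q', l'⟩
        · exact absurd rfl hne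
        · exact hcr q' l' hl') h2
    calc K ^ (j + 1) = K * K ^ j := by ring
      _ ≤ L.length := h3

end Time

end Pool.Agent.W997.LN
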